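import Pool.Agent.Work.MP_a0fd6e_gt.Tools

set_option autoImplicit false

universe u

open Set Topology

namespace Pool.Agent.Work.MP_a0fd6e_gt

theorem isOrderTree_sum {I : Type u} (X : I → Type u) [∀ i, PartialOrder (X i)]
    (hX : ∀ i, IsOrderTree (X i)) : IsOrderTree (WithBot (Σ i, X i)) := by
  refine ⟨⟨⊥, fun t => bot_le⟩, ?_⟩
  intro t S hS hSt
  by_cases hbot : (⊥ : WithBot (Σ i, X i)) ∈ S
  · exact ⟨⊥, hbot, fun a _ => bot_le⟩
  · obtain ⟨n₀, hn₀⟩ := hS
    have hn₀' := hSt n₀ hn₀
    induction n₀ using WithBot.recBotCoe with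
    | bot => exact absurd hn₀ hbot
    | coe p =>
      obtain ⟨i, a⟩ := p
      induction t using WithBot.recBotCoe with
      | bot => exact absurd hn₀' (by simp)
      | coe q =>
        obtain ⟨j, b⟩ := q
        have hall : ∀ n ∈ S, ∃ c : X j, n = ((⟨j, c⟩ : Σ i, X i) : WithBot (Σ i, X i)) ∧ c ≤ b := by
          intro n hn
          have hnt := hSt n hn
          induction n using WithBot.recBotCoe with
          | bot => exact absurd hn hbot
          | coe p =>
            rw [WithBot.coe_le_coe] at hnt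
            cases hnt with
            | fiber _ c _ h => exact ⟨c, rfl, h⟩
        obtain ⟨c₀, hc₀, _⟩ := hall _ hn₀
        obtain ⟨m, hm, hmin⟩ := (hX j).wellOrdered b
          {c | ((⟨j, c⟩ : Σ i, X i) : WithBot (Σ i, X i)) ∈ S} ⟨c₀, by rw [mem_ofPred_eq, ← hc₀]; exact hn₀⟩
          (by
            intro c hc
            have := hSt _ hc
            rw [WithBot.coe_le_coe, Sigma.mk_le_mk_iff] at this
            exact this)
        refine ⟨_, hm, fun n hn => ?_⟩
        obtain ⟨c, rfl, _⟩ := hall n hn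
        rw [WithBot.coe_le_coe, Sigma.mk_le_mk_iff]
        exact hmin c hn

/-- The sum lemma. -/
theorem qr_sum {Y : Type u} [TopologicalSpace Y] {I : Type u} (W : I → Set Y)
    (hopen : ∀ i, IsOpen (W i)) (hdisj : ∀ i j x, x ∈ W i → x ∈ W j → i = j)
    (hQ : ∀ i, QR (W i)) : QR (⋃ i, W i) := by
  classical
  choose X inst hX g hray hcont hinj hsurj using hQ
  let G : Y → Set (WithBot (Σ i, X i)) := fun x =>
    {n | n = ⊥ ∨ ∃ (i : I) (a : X i), n = ((⟨i, a⟩ : Σ i, X i) : WithBot (Σ i, X i)) ∧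
      x ∈ W i ∧ a ∈ g i x}
  have hG : ∀ (x : Y) (i : I) (a : X i),
      ((⟨i, a⟩ : Σ i, X i) : WithBot (Σ i, X i)) ∈ G x ↔ x ∈ W i ∧ a ∈ g i x := by
    intro x i a
    constructor
    · rintro (h | ⟨j, b, h, hx, hb⟩)
      · exact absurd h (by simp)
      · rw [WithBot.coe_inj] at h
        cases h
        exact ⟨hx, hb⟩
    · rintro ⟨hx, ha⟩
      exact Or.inr ⟨i, a, rfl, hx, ha⟩
  refine ⟨WithBot (Σ i, X i), inferInstance, isOrderTree_sum X hX, G, ?_, ?_, ?_, ?_⟩
  · intro x hx
    obtain ⟨i, hxi⟩ := mem_iUnion.1 hx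
    have hshape : ∀ n ∈ G x, n = ⊥ ∨ ∃ a : X i, n = ((⟨i, a⟩ : Σ i, X i) : WithBot (Σ i, X i)) ∧
        a ∈ g i x := by
      rintro n (h | ⟨j, b, h, hxj, hb⟩)
      · exact Or.inl h
      · obtain rfl := hdisj i j x hxi hxj
        exact Or.inr ⟨b, h, hb⟩
    refine ⟨⟨⊥, Or.inl rfl⟩, ?_, ?_, ?_⟩
    · intro s hs s' hs'
      rcases hshape s hs with rfl | ⟨a, rfl, ha⟩
      · exact Or.inl bot_le
      · rcases hshape s' hs' with rfl | ⟨b, rfl, hb⟩
        · exact Or.inr bot_le
        · rw [WithBot.coe_le_coe, WithBot.coe_le_coe, Sigma.mk_le_mk_iff, Sigma.mk_le_mk_iff]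
          exact (hray i x hxi).chain a ha b hb
    · intro s n hsn hn
      rcases hshape n hn with rfl | ⟨a, rfl, ha⟩
      · exact Or.inl (le_bot_iff.1 hsn)
      · induction s using WithBot.recBotCoe with
        | bot => exact Or.inl rfl
        | coe p =>
          rw [WithBot.coe_le_coe] at hsn
          cases hsn with
          | fiber _ c _ h =>
            rw [hG]
            exact ⟨hxi, (hray i x hxi).lower _ _ h ha⟩
    · intro n hn
      rcases hshape n hn with rfl | ⟨a, rfl, ha⟩
      · obtain ⟨a, ha⟩ := (hray i x hxi).nonempty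
        exact ⟨((⟨i, a⟩ : Σ i, X i) : WithBot (Σ i, X i)), (hG x i a).2 ⟨hxi, ha⟩,
          WithBot.bot_lt_coe _⟩
      · obtain ⟨b, hb, hab⟩ := (hray i x hxi).noMax a ha
        refine ⟨((⟨i, b⟩ : Σ i, X i) : WithBot (Σ i, X i)), (hG x i b).2 ⟨hxi, hb⟩, ?_⟩
        rw [WithBot.coe_lt_coe, Sigma.mk_lt_mk_iff]
        exact hab
  · intro n x hx
    induction n using WithBot.recBotCoe with
    | bot => exact ⟨univ, Filter.univ_mem, fun y _ _ => ⟨fun _ => Or.inl rfl, fun _ => Or.inl rfl⟩⟩
    | coe p =>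
      obtain ⟨i, a⟩ := p
      by_cases hxi : x ∈ W i
      · obtain ⟨N, hN, h⟩ := hcont i a x hxi
        refine ⟨N ∩ W i, Filter.inter_mem hN ((hopen i).mem_nhds hxi), fun y hy _ => ?_⟩
        rw [hG, hG]
        simp only [hxi, hy.2, true_and]
        exact h y hy.1 hy.2
      · obtain ⟨j, hxj⟩ := mem_iUnion.1 hx
        refine ⟨W j, (hopen j).mem_nhds hxj, fun y hy _ => ?_⟩
        have hyi : y ∉ W i := by
          intro hyi
          obtain rfl := hdisj i j y hyi hy
          exact hxi hxj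
        rw [hG, hG]
        simp only [hxi, hyi, false_and]
  · intro x hx y hy hxy
    obtain ⟨i, hxi⟩ := mem_iUnion.1 hx
    obtain ⟨a, ha⟩ := (hray i x hxi).nonempty
    have hyi : y ∈ W i := by
      have : ((⟨i, a⟩ : Σ i, X i) : WithBot (Σ i, X i)) ∈ G x := (hG x i a).2 ⟨hxi, ha⟩
      rw [hxy] at this
      exact ((hG y i a).1 this).1
    refine hinj i x hxi y hyi ?_
    ext b
    have := hG x i b
    rw [hxy, hG y i b] at this
    simp only [hxi, hyi, true_and] at this
    exact this.symm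
  · intro R hR
    obtain ⟨n₀, hn₀⟩ := hR.nonempty
    obtain ⟨n₁, hn₁, hlt⟩ := hR.noMax n₀ hn₀
    induction n₁ using WithBot.recBotCoe with
    | bot => exact absurd hlt (by simp)
    | coe p =>
      obtain ⟨i, a⟩ := p
      have hshape : ∀ n ∈ R, n = ⊥ ∨
          ∃ b : X i, n = ((⟨i, b⟩ : Σ i, X i) : WithBot (Σ i, X i)) := by
        intro n hn
        induction n using WithBot.recBotCoe with
        | bot => exact Or.inl rfl
        | coe q =>
          right
          rcases hR.chain _ hn _ hn₁ with h | h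
          · rw [WithBot.coe_le_coe] at h
            cases h with
            | fiber _ c _ h => exact ⟨c, rfl⟩
          · rw [WithBot.coe_le_coe] at h
            cases h with
            | fiber _ _ c h => exact ⟨c, rfl⟩
      have hRi : IsRay {b : X i | ((⟨i, b⟩ : Σ i, X i) : WithBot (Σ i, X i)) ∈ R} := by
        refine ⟨⟨a, hn₁⟩, ?_, ?_, ?_⟩
        · intro b hb c hc
          have := hR.chain _ hb _ hc
          rw [WithBot.coe_le_coe, WithBot.coe_le_coe, Sigma.mk_le_mk_iff,
            Sigma.mk_le_mk_iff] at this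
          exact this
        · intro b c hbc hc
          refine hR.lower _ _ ?_ hc
          rw [WithBot.coe_le_coe, Sigma.mk_le_mk_iff]
          exact hbc
        · intro b hb
          obtain ⟨n, hn, hbn⟩ := hR.noMax _ hb
          rcases hshape n hn with rfl | ⟨c, rfl⟩
          · exact absurd hbn (by simp)
          · rw [WithBot.coe_lt_coe, Sigma.mk_lt_mk_iff] at hbn
            exact ⟨c, hn, hbn⟩
      obtain ⟨x, hx, hgx⟩ := hsurj i _ hRi
      refine ⟨x, mem_iUnion.2 ⟨i, hx⟩, ?_⟩
      ext n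
      constructor
      · rintro (rfl | ⟨j, b, rfl, hxj, hb⟩)
        · exact hR.lower _ _ bot_le hn₀
        · obtain rfl := hdisj i j x hx hxj
          rw [hgx] at hb
          exact hb
      · intro hn
        rcases hshape n hn with rfl | ⟨b, rfl⟩
        · exact Or.inl rfl
        · rw [hG]
          refine ⟨hx, ?_⟩
          rw [hgx]
          exact hn

end Pool.Agent.Work.MP_a0fd6e_gt
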