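import Pool.Agent.Work.MP_a0fd6e_gt.Plug
import Pool.Agent.Work.MP_a0fd6e_gt.SumLemma

set_option autoImplicit false

universe u

open Set Topology

namespace Pool.Agent.Work.MP_a0fd6e_gt

variable {T : Type u} [PartialOrder T]

/-- All members of `S` are tops of one common ray, which contains `t`. -/
def Basic (t : T) (S : Finset T) : Prop :=
  ∃ z : RaySpace T, t ∈ z.1 ∧ ∀ s ∈ S, ∀ c, c < s ↔ c ∈ z.1

/-- The basic clopen sets. -/
def V (t : T) (S : Finset T) : Set (RaySpace T) := {x | t ∈ x.1 ∧ ∀ s ∈ S, s ∉ x.1}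

theorem isOpen_V (t : T) (S : Finset T) : IsOpen (V t S) := by
  have : V t S = {x : RaySpace T | t ∈ x.1} ∩ ⋂ s ∈ S, {x : RaySpace T | s ∉ x.1} := by
    ext x
    simp [V]
  rw [this]
  exact (isOpen_mem t).inter (isOpen_biInter_finset fun s _ => isOpen_notMem s)

/-- A finite subset of a ray is bounded in the ray. -/
theorem bound_finset {R : Set T} (hR : IsRay R) (F : Finset T) (hF : ∀ a ∈ F, a ∈ R) :
    ∃ t ∈ R, ∀ a ∈ F, a ≤ t := by
  classical
  induction F using Finset.induction_on with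
  | empty =>
    obtain ⟨t, ht⟩ := hR.nonempty
    exact ⟨t, ht, by simp⟩
  | insert a F _ ih =>
    obtain ⟨t, ht, h⟩ := ih fun b hb => hF b (Finset.mem_insert_of_mem hb)
    have ha := hF a (Finset.mem_insert_self _ _)
    rcases hR.chain _ ha _ ht with h' | h'
    · refine ⟨t, ht, fun b hb => ?_⟩
      rcases Finset.mem_insert.1 hb with rfl | hb
      · exact h'
      · exact h b hb
    · refine ⟨a, ha, fun b hb => ?_⟩
      rcases Finset.mem_insert.1 hb with rfl | hb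
      · exact le_rfl
      · exact (h b hb).trans h'

/-- The local base lemma. -/
theorem local_base (hT : IsOrderTree T) (U : Set (RaySpace T)) (hU : IsOpen U) (x : RaySpace T)
    (hx : x ∈ U) : ∃ t ∈ x.1, ∃ S : Finset T, (∀ s ∈ S, ∀ c, c < s ↔ c ∈ x.1) ∧ V t S ⊆ U := by
  classical
  obtain ⟨F, hF⟩ := exists_finset U hU x hx
  -- for each a : T pick a bound or a top
  have hch : ∀ a : T, ∃ p : T × T, p.1 ∈ x.1 ∧
      (a ∉ x.1 → (¬ p.1 ≤ a) ∨ ((∀ c, c < p.2 ↔ c ∈ x.1) ∧ p.2 ≤ a)) := by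
    intro a
    obtain ⟨r, hr⟩ := x.2.nonempty
    by_cases ha : a ∈ x.1
    · exact ⟨(r, r), hr, fun h => absurd ha h⟩
    · by_cases hb : ∃ t ∈ x.1, ¬ t ≤ a
      · obtain ⟨t, ht, hta⟩ := hb
        exact ⟨(t, r), ht, fun _ => Or.inl hta⟩
      · push Not at hb
        obtain ⟨m, hm, hmin⟩ := hT.wellOrdered a {c | c ≤ a ∧ c ∉ x.1} ⟨a, le_rfl, ha⟩
          (fun c hc => hc.1)
        refine ⟨(r, m), hr, fun _ => Or.inr ⟨fun c => ⟨fun hc => ?_, fun hc => ?_⟩, hm.1⟩⟩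
        · by_contra hcx
          exact absurd (hmin c ⟨hc.le.trans hm.1, hcx⟩) (not_le_of_gt hc)
        · rcases hT.comparable (hb c hc) hm.1 with h | h
          · refine lt_of_le_of_ne h fun h' => hm.2 ?_
            have h2 : c = m := h'
            rw [← h2]
            exact hc
          · exact absurd (x.2.lower _ _ h hc) hm.2
  choose p hp1 hp2 using hch
  obtain ⟨t, ht, hbd⟩ := bound_finset x.2 ((F.filter fun a => a ∈ x.1) ∪ F.image fun a => (p a).1)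
    (by
      intro a ha
      rcases Finset.mem_union.1 ha with h | h
      · exact (Finset.mem_filter.1 h).2
      · obtain ⟨b, _, rfl⟩ := Finset.mem_image.1 h
        exact hp1 b)
  refine ⟨t, ht, (F.image fun a => (p a).2).filter (fun s => ∀ c, c < s ↔ c ∈ x.1),
    fun s hs => (Finset.mem_filter.1 hs).2, ?_⟩
  rintro y ⟨hty, hSy⟩
  refine hF y fun a haF => ?_
  constructor
  · intro hay
    by_contra hax
    rcases hp2 a hax with h | ⟨h1, h2⟩
    · have hpt : (p a).1 ≤ t := hbd _ (Finset.mem_union_right _ (Finset.mem_image_of_mem _ haF))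
      rcases y.2.chain _ hay _ hty with h' | h'
      · exact hax (x.2.lower _ _ h' ht)
      · exact h (hpt.trans h')
    · exact hSy _ (Finset.mem_filter.2 ⟨Finset.mem_image_of_mem _ haF, h1⟩)
        (y.2.lower _ _ h2 hay)
  · intro hax
    exact y.2.lower _ _ (hbd a (Finset.mem_union_left _ (Finset.mem_filter.2 ⟨haF, hax⟩))) hty

/-- The node `t` captures `x` in `U`. -/
def P (U : Set (RaySpace T)) (x : RaySpace T) (t : T) : Prop :=
  ∃ S : Finset T, Basic t S ∧ x ∈ V t S ∧ V t S ⊆ U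

/-- The node `t` is the least node capturing `x` in `U`. -/
def Tau (U : Set (RaySpace T)) (x : RaySpace T) (t : T) : Prop :=
  P U x t ∧ ∀ t' ∈ x.1, P U x t' → t ≤ t'

theorem P.mem {U : Set (RaySpace T)} {x : RaySpace T} {t : T} (h : P U x t) : t ∈ x.1 := by
  obtain ⟨_, _, h, _⟩ := h
  exact h.1

theorem P.memU {U : Set (RaySpace T)} {x : RaySpace T} {t : T} (h : P U x t) : x ∈ U := by
  obtain ⟨_, _, h, h'⟩ := h
  exact h' h

theorem exists_tau (hT : IsOrderTree T) (U : Set (RaySpace T)) (hU : IsOpen U) (x : RaySpace T)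
    (hx : x ∈ U) : ∃ t, Tau U x t := by
  obtain ⟨t, ht, S, hS, hSU⟩ := local_base hT U hU x hx
  have hP : P U x t := by
    refine ⟨S, ⟨x, ht, hS⟩, ⟨ht, fun s hs hsx => ?_⟩, hSU⟩
    exact absurd ((hS s hs s).2 hsx) (lt_irrefl s)
  obtain ⟨m, hm, hmin⟩ := hT.exists_least x.2 (A := {t | t ∈ x.1 ∧ P U x t}) (fun a ha => ha.1)
    ⟨t, ht, hP⟩
  exact ⟨m, hm.2, fun t' ht' hP' => hmin t' ⟨ht', hP'⟩⟩

theorem Tau.unique {U : Set (RaySpace T)} {x : RaySpace T} {t t' : T} (h : Tau U x t)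
    (h' : Tau U x t') : t = t' :=
  le_antisymm (h.2 _ h'.1.mem h'.1) (h'.2 _ h.1.mem h.1)

/-- Key Lemma 1. -/
theorem Tau.transfer {U : Set (RaySpace T)} {x y : RaySpace T} {t : T}
    (hx : Tau U x t) (hy : P U y t) : Tau U y t := by
  refine ⟨hy, fun t' ht'y hPy => ?_⟩
  rcases y.2.chain _ hy.mem _ ht'y with h | ht't
  · exact h
  by_contra hntt'
  obtain ⟨S', ⟨z', ht'z', hz'⟩, hyV, hV'⟩ := hPy
  have ht'x : t' ∈ x.1 := x.2.lower _ _ ht't hx.1.mem
  by_cases hxV : x ∈ V t' S'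
  · exact hntt' (hx.2 t' ht'x ⟨S', ⟨z', ht'z', hz'⟩, hxV, hV'⟩)
  · have : ∃ s' ∈ S', s' ∈ x.1 := by
      by_contra hcon
      push Not at hcon
      exact hxV ⟨ht'x, hcon⟩
    obtain ⟨s', hs', hs'x⟩ := this
    have htz' : t ∈ z'.1 := by
      rw [← hz' s' hs' t]
      rcases x.2.chain _ hs'x _ hx.1.mem with h | h
      · exact absurd (y.2.lower _ _ h hy.mem) (hyV.2 s' hs')
      · refine lt_of_le_of_ne h fun h' => hyV.2 s' hs' ?_
        rw [← h']
        exact hy.mem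
    obtain ⟨S₀, ⟨z₀, htz₀, hz₀⟩, hxV₀, hV₀⟩ := hx.1
    refine hntt' (hx.2 t' ht'x ⟨S₀, ⟨z₀, z₀.2.lower _ _ ht't htz₀, hz₀⟩, ⟨ht'x, hxV₀.2⟩, ?_⟩)
    rintro w ⟨ht'w, hw⟩
    by_cases htw : t ∈ w.1
    · exact hV₀ ⟨htw, hw⟩
    · refine hV' ⟨ht'w, fun s hs hsw => htw ?_⟩
      exact w.2.lower _ _ ((hz' s hs t).2 htz').le hsw

/-- The pieces are open. -/
theorem isOpen_piece (U : Set (RaySpace T)) (t : T) : IsOpen {x | Tau U x t} := by
  rw [isOpen_iff_mem_nhds]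
  intro x hx
  obtain ⟨S, hS, hxV, hVU⟩ := hx.1
  filter_upwards [(isOpen_V t S).mem_nhds hxV] with y hy
  exact Tau.transfer hx ⟨S, hS, hy, hVU⟩

/-- Key Lemma 2: each piece is a quasi-ray. -/
theorem qr_piece (hT : IsOrderTree T) (U : Set (RaySpace T)) (t : T)
    (hne : {x : RaySpace T | Tau U x t}.Nonempty) : QR {x : RaySpace T | Tau U x t} := by
  classical
  set W : Set (RaySpace T) := {x : RaySpace T | Tau U x t} with hWdef
  have htW : ∀ x ∈ W, t ∈ x.1 := fun x hx => hx.1.mem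
  by_cases hex : ∃ z : RaySpace T, t ∈ z.1 ∧ (∀ a ∈ z.1, t ≤ a → ∃ x ∈ W, a ∈ x.1) ∧ z ∉ W
  · obtain ⟨z, htz, hzA, hzW⟩ := hex
    -- an extra ray meets each `S` of the family
    have hmeet : ∀ y : RaySpace T, t ∈ y.1 → y ∉ W → ∀ x ∈ W, ∀ S : Finset T, Basic t S →
        V t S ⊆ U → ∃ s ∈ S, s ∈ y.1 := by
      intro y hty hyW x hx S hS hSU
      by_contra hcon
      push Not at hcon
      exact hyW (Tau.transfer hx ⟨S, hS, ⟨hty, hcon⟩, hSU⟩)
    have hsub : ∀ y y' : RaySpace T, t ∈ y.1 → t ∈ y'.1 →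
        (∀ a ∈ y.1, t ≤ a → ∃ x ∈ W, a ∈ x.1) → y ∉ W → y' ∉ W → y.1 ⊆ y'.1 := by
      intro y y' hty hty' hyA hyW hy'W a hay
      rcases y.2.chain _ hay _ hty with hat | hta
      · exact y'.2.lower _ _ hat hty'
      obtain ⟨x, hx, hax⟩ := hyA a hay hta
      obtain ⟨S, ⟨z₁, htz₁, hz₁⟩, hxV, hVU⟩ := hx.1
      obtain ⟨s, hs, hsy⟩ := hmeet y hty hyW x hx S ⟨z₁, htz₁, hz₁⟩ hVU
      obtain ⟨s', hs', hs'y'⟩ := hmeet y' hty' hy'W x hx S ⟨z₁, htz₁, hz₁⟩ hVU
      have has : a < s := by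
        rcases y.2.chain _ hay _ hsy with h | h
        · refine lt_of_le_of_ne h fun h' => hxV.2 s hs ?_
          rw [← h']
          exact hax
        · exact absurd (x.2.lower _ _ h hax) (hxV.2 s hs)
      have haz₁ : a ∈ z₁.1 := (hz₁ s hs a).1 has
      exact y'.2.lower _ _ ((hz₁ s' hs' a).2 haz₁).le hs'y'
    obtain ⟨x₀, hx₀⟩ := hne
    obtain ⟨S₀, ⟨z₀, htz₀, hz₀⟩, hxV₀, hV₀⟩ := hx₀.1
    obtain ⟨s₀, hs₀, hs₀z⟩ := hmeet z htz hzW x₀ hx₀ S₀ ⟨z₀, htz₀, hz₀⟩ hV₀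
    refine qr_plug hT W t htW z hzW hzA ?_ z₀ ?_ ?_
    · intro y hty hyA
      by_cases hyW : y ∈ W
      · exact Or.inl hyW
      · right
        exact Subtype.ext (Subset.antisymm (hsub y z hty htz hyA hyW hzW)
          (hsub z y htz hty hzA hzW hyW))
    · refine Tau.transfer hx₀ ⟨S₀, ⟨z₀, htz₀, hz₀⟩, ⟨htz₀, fun s hs hsz => ?_⟩, hV₀⟩
      exact absurd ((hz₀ s hs s).2 hsz) (lt_irrefl s)
    · intro a ha
      exact z.2.lower _ _ ((hz₀ s₀ hs₀ a).2 ha).le hs₀z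
  · push Not at hex
    exact qr_subtree hT W hne t htW fun y hty hy => hex y hty hy

theorem qr_open (hT : IsOrderTree T) (U : Set (RaySpace T)) (hU : IsOpen U) : QR U := by
  have h := qr_sum (I := {t : T // {x : RaySpace T | Tau U x t}.Nonempty})
    (fun t => {x : RaySpace T | Tau U x t.1}) (fun t => isOpen_piece U t.1)
    (fun i j x hi hj => Subtype.ext (Tau.unique hi hj)) (fun t => qr_piece hT U t.1 t.2)
  have hU' : (⋃ t : {t : T // {x : RaySpace T | Tau U x t}.Nonempty},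
      {x : RaySpace T | Tau U x t.1}) = U := by
    ext x
    constructor
    · intro hx
      obtain ⟨t, ht⟩ := mem_iUnion.1 hx
      exact ht.1.memU
    · intro hx
      obtain ⟨t, ht⟩ := exists_tau hT U hU x hx
      exact mem_iUnion.2 ⟨⟨t, x, ht⟩, ht⟩
  rw [hU'] at h
  exact h

/-- Every open subspace of a ray space is a quasi-ray space. -/
theorem isQuasiRay_of_isOpen (hT : IsOrderTree T) (U : Set (RaySpace T)) (hU : IsOpen U) :
    IsQuasiRay U :=
  (qr_open hT U hU).isQuasiRay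

theorem isQuasiRay_of_isRaySpace (X : Type u) [TopologicalSpace X] (hX : IsRaySpace X)
    (U : Set X) (hU : IsOpen U) : IsQuasiRay U := by
  obtain ⟨T, _, hT, ⟨h⟩⟩ := hX
  obtain ⟨T', inst, hT', f, hf, hbij⟩ :=
    isQuasiRay_of_isOpen hT (h '' U) ((h.isOpen_image).2 hU)
  exact ⟨T', inst, hT', f ∘ h.image U, hf.comp (h.image U).continuous,
    hbij.comp (h.image U).bijective⟩

end Pool.Agent.Work.MP_a0fd6e_gt
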