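import Mathlib

set_option autoImplicit false

universe u

namespace Pool.Agent.Work.MP_a0fd6e_gt

/-- An order tree: a partially ordered set with a least element (the root) in which, for every
`t`, the set `{s | s ≤ t}` is well-ordered, that is, each of its nonempty subsets has a least
element. -/
structure IsOrderTree (T : Type u) [PartialOrder T] : Prop where
  root : ∃ r : T, ∀ t : T, r ≤ t
  wellOrdered : ∀ (t : T) (A : Set T), A.Nonempty → (∀ a ∈ A, a ≤ t) → ∃ m ∈ A, ∀ a ∈ A, m ≤ a

/-- A ray: a nonempty chain which is closed downwards and has no maximal element. -/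
structure IsRay {T : Type u} [PartialOrder T] (R : Set T) : Prop where
  nonempty : R.Nonempty
  chain : ∀ s ∈ R, ∀ t ∈ R, s ≤ t ∨ t ≤ s
  lower : ∀ s t : T, s ≤ t → t ∈ R → s ∈ R
  noMax : ∀ t ∈ R, ∃ s ∈ R, t < s

/-- The set of all rays. -/
def RaySpace (T : Type u) [PartialOrder T] : Type u := {R : Set T // IsRay R}

/-- The characteristic function of a ray, a point of the Cantor cube `T → Bool`. -/
noncomputable def RaySpace.code {T : Type u} [PartialOrder T] (R : RaySpace T) : T → Bool :=
  fun t => by classical exact decide (t ∈ R.1)

/-- The ray space carries the subspace topology of the Cantor cube. -/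
noncomputable instance {T : Type u} [PartialOrder T] : TopologicalSpace (RaySpace T) :=
  TopologicalSpace.induced RaySpace.code inferInstance

/-- A ray space: a space homeomorphic to the space of rays of some order tree. -/
def IsRaySpace (X : Type u) [TopologicalSpace X] : Prop :=
  ∃ (T : Type u) (_ : PartialOrder T), IsOrderTree T ∧ Nonempty (X ≃ₜ RaySpace T)

/-- A quasi-ray space: a space with a continuous bijection onto the ray space of some
order tree. -/
def IsQuasiRay (X : Type u) [TopologicalSpace X] : Prop :=
  ∃ (T : Type u) (_ : PartialOrder T), IsOrderTree T ∧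
    ∃ f : X → RaySpace T, Continuous f ∧ Function.Bijective f

end Pool.Agent.Work.MP_a0fd6e_gt
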