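import Pool.Agent.Work.MP_a0fd6e_gt.Tools

set_option autoImplicit false

universe u

open Set Topology

namespace Pool.Agent.Work.MP_a0fd6e_gt

/-- The data for plugging one missing ray `z`. -/
structure PlugData {T : Type u} [PartialOrder T] (W : Set (RaySpace T)) where
  hT : IsOrderTree T
  t : T
  z : RaySpace T
  z₀ : RaySpace T
  c : ℕ → T
  ts : T
  c0 : c 0 = t
  clt : ∀ n, c n < c (n + 1)
  ht : ∀ x ∈ W, t ∈ x.1
  hz : z ∉ W
  hz₀ : z₀ ∈ W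
  mem_z₀ : ∀ a, a ∈ z₀.1 ↔ ∃ n, a ≤ c n
  z₀_sub : z₀.1 ⊆ z.1
  tsz : ts ∈ z.1
  ts_least : ∀ a ∈ z.1, a ∉ z₀.1 → ts ≤ a
  ts_not : ts ∉ z₀.1
  hA : ∀ a ∈ z.1, t ≤ a → ∃ x ∈ W, a ∈ x.1
  hfull : ∀ y : RaySpace T, t ∈ y.1 → (∀ a ∈ y.1, t ≤ a → ∃ x ∈ W, a ∈ x.1) → y ∈ W ∨ y = z

namespace PlugData

variable {T : Type u} [PartialOrder T] {W : Set (RaySpace T)} (D : PlugData W)

/-- The nodes of the new tree. -/
structure Node (D : PlugData W) : Type u where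
  val : T
  le : D.t ≤ val
  mem : ∃ x ∈ W, val ∈ x.1

theorem cmono : StrictMono D.c := strictMono_nat_of_lt_succ D.clt

theorem c_mem_z₀ (n : ℕ) : D.c n ∈ D.z₀.1 := (D.mem_z₀ _).2 ⟨n, le_rfl⟩

theorem c_le_ts (n : ℕ) : D.c n ≤ D.ts := by
  rcases D.z.2.chain _ (D.z₀_sub (D.c_mem_z₀ n)) _ D.tsz with h | h
  · exact h
  · exact absurd (D.z₀.2.lower _ _ h (D.c_mem_z₀ n)) D.ts_not

theorem t_le_ts : D.t ≤ D.ts := D.c0 ▸ D.c_le_ts 0

theorem K1 {a : T} (ha : a ∈ D.z.1) (h : ∀ n, D.c n ≤ a) : D.ts ≤ a := by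
  refine D.ts_least a ha fun ha' => ?_
  obtain ⟨n, hn⟩ := (D.mem_z₀ a).1 ha'
  exact absurd ((h (n + 1)).trans hn) (not_le_of_gt (D.clt n))

theorem K2 {a b : T} (hb : D.ts ≤ b) (hab : a ≤ b) (h : ∀ n, D.c n ≤ b → D.c n ≤ a) :
    D.ts ≤ a := by
  rcases D.hT.comparable hab hb with h' | h'
  · exact D.K1 (D.z.2.lower _ _ h' D.tsz) fun n => h n ((D.c_le_ts n).trans hb)
  · exact h'

/-- The new order. -/
def le' (a b : D.Node) : Prop :=
  (a.val ≤ b.val ∧ ∀ n, D.c n ≤ b.val → D.c n ≤ a.val) ∨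
    (D.ts ≤ a.val ∧ a.val ∈ D.z.1 ∧ ¬ D.ts ≤ b.val)

theorem ext' {a b : D.Node} (h : a.val = b.val) : a = b := by
  cases a; cases b; cases h; rfl

instance order : PartialOrder D.Node where
  le := D.le'
  le_refl a := Or.inl ⟨le_rfl, fun _ h => h⟩
  le_trans a b e hab hbe := by
    rcases hab with ⟨h1, h2⟩ | ⟨h1, h2, h3⟩ <;> rcases hbe with ⟨k1, k2⟩ | ⟨k1, k2, k3⟩
    · exact Or.inl ⟨h1.trans k1, fun n hn => h2 n (k2 n hn)⟩
    · exact Or.inr ⟨D.K2 k1 h1 h2, D.z.2.lower _ _ h1 k2, k3⟩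
    · exact Or.inr ⟨h1, h2, fun h => h3 (D.K2 h k1 k2)⟩
    · exact absurd k1 h3
  le_antisymm a b hab hba := by
    rcases hab with ⟨h1, h2⟩ | ⟨h1, h2, h3⟩ <;> rcases hba with ⟨k1, k2⟩ | ⟨k1, k2, k3⟩
    · exact D.ext' (le_antisymm h1 k1)
    · exact absurd (D.K2 k1 h1 h2) k3
    · exact absurd (D.K2 h1 k1 k2) h3
    · exact absurd k1 h3

theorem le_def (a b : D.Node) : a ≤ b ↔ (a.val ≤ b.val ∧ ∀ n, D.c n ≤ b.val → D.c n ≤ a.val) ∨
    (D.ts ≤ a.val ∧ a.val ∈ D.z.1 ∧ ¬ D.ts ≤ b.val) := Iff.rfl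

theorem le_of_not_ts {a b : D.Node} (h : a ≤ b) (ha : ¬ D.ts ≤ a.val) :
    a.val ≤ b.val ∧ ∀ n, D.c n ≤ b.val → D.c n ≤ a.val := by
  rcases h with h | ⟨h1, _⟩
  · exact h
  · exact absurd h1 ha

theorem le_of_ts {a b : D.Node} (h : a ≤ b) (hb : D.ts ≤ b.val) :
    a.val ≤ b.val ∧ ∀ n, D.c n ≤ b.val → D.c n ≤ a.val := by
  rcases h with h | ⟨_, _, h3⟩
  · exact h
  · exact absurd hb h3

theorem not_ts_of_le {a b : D.Node} (h : a ≤ b) (ha : ¬ D.ts ≤ a.val) : ¬ D.ts ≤ b.val :=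
  fun hb => ha (D.K2 hb (D.le_of_not_ts h ha).1 (D.le_of_not_ts h ha).2)

/-- The new root. -/
def root : D.Node := ⟨D.ts, D.t_le_ts, D.hA _ D.tsz D.t_le_ts⟩

theorem root_le (a : D.Node) : D.root ≤ a := by
  by_cases h : D.ts ≤ a.val
  · exact Or.inl ⟨h, fun n _ => D.c_le_ts n⟩
  · exact Or.inr ⟨le_rfl, D.tsz, h⟩

theorem isOrderTree : IsOrderTree D.Node := by
  refine ⟨⟨D.root, D.root_le⟩, ?_⟩
  intro b S hS hSb
  by_cases hcase : (∃ a ∈ S, D.ts ≤ a.val) ∧ ¬ D.ts ≤ b.val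
  · obtain ⟨⟨a₀, ha₀, hta₀⟩, hb⟩ := hcase
    have hz : ∀ a ∈ S, D.ts ≤ a.val → a.val ∈ D.z.1 := by
      intro a ha hta
      rcases hSb a ha with h | h
      · exact absurd (hta.trans h.1) hb
      · exact h.2.1
    obtain ⟨m, hm, hmin⟩ := D.hT.exists_least D.z.2 (A := {s | ∃ a ∈ S, D.ts ≤ a.val ∧ a.val = s})
      (by rintro _ ⟨a, ha, hta, rfl⟩; exact hz a ha hta) ⟨a₀.val, a₀, ha₀, hta₀, rfl⟩
    obtain ⟨m', hm', htm', rfl⟩ := hm
    refine ⟨m', hm', fun a ha => ?_⟩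
    by_cases hta : D.ts ≤ a.val
    · exact Or.inl ⟨hmin _ ⟨a, ha, hta, rfl⟩, fun n _ => (D.c_le_ts n).trans htm'⟩
    · exact Or.inr ⟨htm', hz _ hm' htm', hta⟩
  · have hS1 : ∀ a ∈ S, a.val ≤ b.val ∧ ∀ n, D.c n ≤ b.val → D.c n ≤ a.val := by
      intro a ha
      rcases hSb a ha with h | h
      · exact h
      · exact absurd ⟨⟨a, ha, h.1⟩, h.2.2⟩ hcase
    obtain ⟨m, hm, hmin⟩ := D.hT.wellOrdered b.val (Node.val '' S) (hS.image _)
      (by rintro _ ⟨a, ha, rfl⟩; exact (hS1 a ha).1)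
    obtain ⟨m', hm', rfl⟩ := hm
    exact ⟨m', hm', fun a ha => Or.inl ⟨hmin _ ⟨a, ha, rfl⟩,
      fun n hn => (hS1 m' hm').2 n (hn.trans (hS1 a ha).1)⟩⟩

/-- The map on rays. -/
def g (x : RaySpace T) : Set D.Node :=
  {a | (D.ts ≤ a.val ∧ a.val ∈ x.1) ∨ (D.ts ≤ a.val ∧ a.val ∈ D.z.1 ∧ D.ts ∉ x.1) ∨
    (¬ D.ts ≤ a.val ∧ a.val ∈ x.1 ∧ ∀ n, D.c n ∈ x.1 → D.c n ≤ a.val)}

theorem ts_notMem_of {x : RaySpace T} {a : T} (h1 : ¬ D.ts ≤ a) (h2 : a ∈ x.1)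
    (h3 : ∀ n, D.c n ∈ x.1 → D.c n ≤ a) : D.ts ∉ x.1 := by
  intro h
  have hc : ∀ n, D.c n ≤ a := fun n => h3 n (x.2.lower _ _ (D.c_le_ts n) h)
  rcases x.2.chain _ h2 _ h with h' | h'
  · exact h1 (D.K1 (D.z.2.lower _ _ h' D.tsz) hc)
  · exact h1 h'

theorem isRay_g {x : RaySpace T} (hx : x ∈ W) : IsRay (D.g x) := by
  refine ⟨⟨D.root, ?_⟩, ?_, ?_, ?_⟩
  · by_cases h : D.ts ∈ x.1
    · exact Or.inl ⟨le_rfl, h⟩
    · exact Or.inr (Or.inl ⟨le_rfl, D.tsz, h⟩)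
  · have both : ∀ a b : D.Node, D.ts ≤ a.val → D.ts ≤ b.val → (a.val ≤ b.val ∨ b.val ≤ a.val) →
        (a ≤ b ∨ b ≤ a) := by
      intro a b ha hb h
      rcases h with h | h
      · exact Or.inl (Or.inl ⟨h, fun n _ => (D.c_le_ts n).trans ha⟩)
      · exact Or.inr (Or.inl ⟨h, fun n _ => (D.c_le_ts n).trans hb⟩)
    rintro a (⟨ha, hax⟩ | ⟨ha, haz, htx⟩ | ⟨ha, hax, hac⟩) b
      (⟨hb, hbx⟩ | ⟨hb, hbz, htx'⟩ | ⟨hb, hbx, hbc⟩)
    · exact both a b ha hb (x.2.chain _ hax _ hbx)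
    · exact absurd (x.2.lower _ _ ha hax) htx'
    · exact absurd (x.2.lower _ _ ha hax) (D.ts_notMem_of hb hbx hbc)
    · exact absurd (x.2.lower _ _ hb hbx) htx
    · exact both a b ha hb (D.z.2.chain _ haz _ hbz)
    · exact Or.inl (Or.inr ⟨ha, haz, hb⟩)
    · exact absurd (x.2.lower _ _ hb hbx) (D.ts_notMem_of ha hax hac)
    · exact Or.inr (Or.inr ⟨hb, hbz, ha⟩)
    · rcases x.2.chain _ hax _ hbx with h | h
      · exact Or.inl (Or.inl ⟨h, fun n hn => hac n (x.2.lower _ _ hn hbx)⟩)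
      · exact Or.inr (Or.inl ⟨h, fun n hn => hbc n (x.2.lower _ _ hn hax)⟩)
  · rintro s a hsa (⟨ha, hax⟩ | ⟨ha, haz, htx⟩ | ⟨ha, hax, hac⟩)
    · obtain ⟨h1, h2⟩ := D.le_of_ts hsa ha
      exact Or.inl ⟨D.K2 ha h1 h2, x.2.lower _ _ h1 hax⟩
    · obtain ⟨h1, h2⟩ := D.le_of_ts hsa ha
      exact Or.inr (Or.inl ⟨D.K2 ha h1 h2, D.z.2.lower _ _ h1 haz, htx⟩)
    · rcases hsa with ⟨h1, h2⟩ | ⟨h1, h2, h3⟩
      · exact Or.inr (Or.inr ⟨fun h => ha (h.trans h1), x.2.lower _ _ h1 hax,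
          fun n hn => h2 n (hac n hn)⟩)
      · exact Or.inr (Or.inl ⟨h1, h2, D.ts_notMem_of ha hax hac⟩)
  · rintro a (⟨ha, hax⟩ | ⟨ha, haz, htx⟩ | ⟨ha, hax, hac⟩)
    · obtain ⟨b, hb, hab⟩ := x.2.noMax _ hax
      refine ⟨⟨b, a.le.trans hab.le, x, hx, hb⟩, Or.inl ⟨ha.trans hab.le, hb⟩, ?_⟩
      refine lt_of_le_of_ne (Or.inl ⟨hab.le, fun n _ => (D.c_le_ts n).trans ha⟩) ?_
      intro h
      exact hab.ne (congrArg Node.val h)
    · obtain ⟨b, hb, hab⟩ := D.z.2.noMax _ haz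
      refine ⟨⟨b, a.le.trans hab.le, D.hA b hb (a.le.trans hab.le)⟩,
        Or.inr (Or.inl ⟨ha.trans hab.le, hb, htx⟩), ?_⟩
      refine lt_of_le_of_ne (Or.inl ⟨hab.le, fun n _ => (D.c_le_ts n).trans ha⟩) ?_
      intro h
      exact hab.ne (congrArg Node.val h)
    · obtain ⟨b, hb, hab⟩ := x.2.noMax _ hax
      refine ⟨⟨b, a.le.trans hab.le, x, hx, hb⟩, Or.inr (Or.inr ⟨?_, hb, ?_⟩), ?_⟩
      · exact fun h => D.ts_notMem_of ha hax hac (x.2.lower _ _ h hb)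
      · exact fun n hn => (hac n hn).trans hab.le
      · refine lt_of_le_of_ne (Or.inl ⟨hab.le, fun n hn => hac n (x.2.lower _ _ hn hb)⟩) ?_
        intro h
        exact hab.ne (congrArg Node.val h)

theorem recover₁ {x : RaySpace T} (hx : x ∈ W) {a₀ : D.Node} (ha₀ : a₀ ∈ D.g x)
    (hta₀ : ¬ D.ts ≤ a₀.val) (s : T) :
    s ∈ x.1 ↔ ∃ a ∈ D.g x, ¬ D.ts ≤ a.val ∧ s ≤ a.val := by
  constructor
  · intro hs
    rcases ha₀ with ⟨h, _⟩ | ⟨h, _⟩ | ⟨_, hax, hac⟩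
    · exact absurd h hta₀
    · exact absurd h hta₀
    · rcases x.2.chain _ hs _ hax with h | h
      · exact ⟨a₀, Or.inr (Or.inr ⟨hta₀, hax, hac⟩), hta₀, h⟩
      · have hts : ¬ D.ts ≤ s := fun h' => D.ts_notMem_of hta₀ hax hac (x.2.lower _ _ h' hs)
        exact ⟨⟨s, a₀.le.trans h, x, hx, hs⟩,
          Or.inr (Or.inr ⟨hts, hs, fun n hn => (hac n hn).trans h⟩), hts, le_rfl⟩
  · rintro ⟨a, (⟨h, _⟩ | ⟨h, _⟩ | ⟨_, hax, _⟩), hta, hsa⟩
    · exact absurd h hta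
    · exact absurd h hta
    · exact x.2.lower _ _ hsa hax

theorem recover₂ {x : RaySpace T} (hx : x ∈ W) (htx : D.ts ∈ x.1) (s : T) :
    s ∈ x.1 ↔ ∃ a ∈ D.g x, s ≤ a.val := by
  constructor
  · intro hs
    rcases x.2.chain _ hs _ htx with h | h
    · exact ⟨D.root, Or.inl ⟨le_rfl, htx⟩, h⟩
    · exact ⟨⟨s, D.t_le_ts.trans h, x, hx, hs⟩, Or.inl ⟨h, hs⟩, le_rfl⟩
  · rintro ⟨a, (⟨_, hax⟩ | ⟨_, _, h⟩ | ⟨_, hax, _⟩), hsa⟩
    · exact x.2.lower _ _ hsa hax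
    · exact absurd htx h
    · exact x.2.lower _ _ hsa hax

theorem recover₃ {x : RaySpace T} (hx : x ∈ W) (htx : D.ts ∉ x.1)
    (h : ∀ a ∈ D.g x, D.ts ≤ a.val) : x = D.z₀ := by
  by_contra hne
  have key : ∀ a ∈ x.1, D.t ≤ a → (∀ n, D.c n ∈ x.1 → D.c n ≤ a) → False := by
    intro a hax hta hac
    have : D.ts ≤ a := h ⟨a, hta, x, hx, hax⟩
      (Or.inr (Or.inr ⟨fun h' => htx (x.2.lower _ _ h' hax), hax, hac⟩))
    exact htx (x.2.lower _ _ this hax)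
  by_cases hc : ∀ n, D.c n ∈ x.1
  · have hsub : D.z₀.1 ⊆ x.1 := by
      intro a ha
      obtain ⟨n, hn⟩ := (D.mem_z₀ a).1 ha
      exact x.2.lower _ _ hn (hc n)
    have : ∃ a ∈ x.1, a ∉ D.z₀.1 := by
      by_contra hcon
      push Not at hcon
      exact hne (Subtype.ext (Subset.antisymm hcon hsub))
    obtain ⟨a, hax, haz⟩ := this
    have hca : ∀ n, D.c n ≤ a := by
      intro n
      rcases x.2.chain _ (hc n) _ hax with h' | h'
      · exact h'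
      · exact absurd (D.z₀.2.lower _ _ h' (D.c_mem_z₀ n)) haz
    exact key a hax (D.c0 ▸ hca 0) fun n _ => hca n
  · classical
    push Not at hc
    have hn := Nat.find_spec hc
    have hmin := fun m => Nat.find_min hc (m := m)
    set n := Nat.find hc
    have h0 : D.c 0 ∈ x.1 := by rw [D.c0]; exact D.ht x hx
    obtain ⟨k, hk⟩ : ∃ k, n = k + 1 := by
      cases hcase : n with
      | zero => rw [hcase] at hn; exact absurd h0 hn
      | succ k => exact ⟨k, rfl⟩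
    have hkx : D.c k ∈ x.1 := by
      by_contra h'
      exact hmin k (by omega) h'
    refine key (D.c k) hkx (D.c0 ▸ D.cmono.monotone (Nat.zero_le k)) ?_
    intro m hm
    by_contra hmk
    have : k < m := by
      by_contra h'
      exact hmk (D.cmono.monotone (by omega))
    exact hn (x.2.lower _ _ (D.cmono.monotone (by omega : n ≤ m)) hm)

theorem g_z₀_mem (a : D.Node) : a ∈ D.g D.z₀ ↔ D.ts ≤ a.val ∧ a.val ∈ D.z.1 := by
  constructor
  · rintro (⟨h1, h2⟩ | ⟨h1, h2, _⟩ | ⟨_, h2, h3⟩)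
    · exact absurd (D.z₀.2.lower _ _ h1 h2) D.ts_not
    · exact ⟨h1, h2⟩
    · obtain ⟨n, hn⟩ := (D.mem_z₀ _).1 h2
      exact absurd ((h3 (n + 1) (D.c_mem_z₀ _)).trans hn) (not_le_of_gt (D.clt n))
  · rintro ⟨h1, h2⟩
    exact Or.inr (Or.inl ⟨h1, h2, D.ts_not⟩)

theorem injective {x y : RaySpace T} (hx : x ∈ W) (hy : y ∈ W) (h : D.g x = D.g y) : x = y := by
  by_cases hc : ∃ a ∈ D.g x, ¬ D.ts ≤ a.val
  · obtain ⟨a, ha, hta⟩ := hc
    apply Subtype.ext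
    ext s
    rw [D.recover₁ hx ha hta, D.recover₁ hy (h ▸ ha) hta, h]
  · push Not at hc
    have hc' : ∀ a ∈ D.g y, D.ts ≤ a.val := by rw [← h]; exact hc
    have aux : ∀ {x y : RaySpace T}, x ∈ W → y ∈ W → D.g x = D.g y →
        D.ts ∈ x.1 → D.ts ∉ y.1 → (∀ a ∈ D.g y, D.ts ≤ a.val) → False := by
      intro x y hx hy h htx hty hc'
      have hyz := D.recover₃ hy hty hc'
      have : x = D.z := by
        apply Subtype.ext
        ext s
        rw [D.recover₂ hx htx, h, hyz]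
        constructor
        · rintro ⟨a, ha, hsa⟩
          exact D.z.2.lower _ _ hsa ((D.g_z₀_mem a).1 ha).2
        · intro hs
          rcases D.z.2.chain _ hs _ D.tsz with h' | h'
          · exact ⟨D.root, (D.g_z₀_mem _).2 ⟨le_rfl, D.tsz⟩, h'⟩
          · exact ⟨⟨s, D.t_le_ts.trans h', D.hA s hs (D.t_le_ts.trans h')⟩,
              (D.g_z₀_mem _).2 ⟨h', hs⟩, le_rfl⟩
      exact D.hz (this ▸ hx)
    by_cases htx : D.ts ∈ x.1 <;> by_cases hty : D.ts ∈ y.1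
    · apply Subtype.ext
      ext s
      rw [D.recover₂ hx htx, D.recover₂ hy hty, h]
    · exact (aux hx hy h htx hty hc').elim
    · exact (aux hy hx h.symm hty htx hc).elim
    · rw [D.recover₃ hx htx hc, D.recover₃ hy hty hc']

theorem surjective (R : Set D.Node) (hR : IsRay R) : ∃ x ∈ W, D.g x = R := by
  have hrootR : D.root ∈ R := by
    obtain ⟨a, ha⟩ := hR.nonempty
    exact hR.lower _ _ (D.root_le a) ha
  by_cases hc : ∃ b ∈ R, ¬ D.ts ≤ b.val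
  · obtain ⟨b, hb, htb⟩ := hc
    let X : Set T := {s | ∃ a ∈ R, ¬ D.ts ≤ a.val ∧ s ≤ a.val}
    have hX : IsRay X := by
      refine ⟨⟨b.val, b, hb, htb, le_rfl⟩, ?_, ?_, ?_⟩
      · rintro s ⟨a, ha, hta, hsa⟩ s' ⟨a', ha', hta', hsa'⟩
        rcases hR.chain a ha a' ha' with h | h
        · exact D.hT.comparable (hsa.trans (D.le_of_not_ts h hta).1) hsa'
        · exact D.hT.comparable hsa (hsa'.trans (D.le_of_not_ts h hta').1)
      · rintro s s' hss' ⟨a, ha, hta, hsa⟩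
        exact ⟨a, ha, hta, hss'.trans hsa⟩
      · rintro s ⟨a, ha, hta, hsa⟩
        obtain ⟨a', ha', haa'⟩ := hR.noMax a ha
        have h1 := (D.le_of_not_ts haa'.le hta).1
        refine ⟨a'.val, ⟨a', ha', D.not_ts_of_le haa'.le hta, le_rfl⟩, hsa.trans_lt ?_⟩
        exact lt_of_le_of_ne h1 fun h => haa'.ne (D.ext' h)
    have htX : D.ts ∉ X := by
      rintro ⟨a, _, hta, h⟩
      exact hta h
    have hXW : (⟨X, hX⟩ : RaySpace T) ∈ W := by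
      rcases D.hfull ⟨X, hX⟩ ⟨b, hb, htb, b.le⟩ (by
        rintro s ⟨a, ha, hta, hsa⟩ _
        obtain ⟨x, hx, hax⟩ := a.mem
        exact ⟨x, hx, x.2.lower _ _ hsa hax⟩) with h | h
      · exact h
      · exfalso
        apply htX
        have : X = D.z.1 := congrArg Subtype.val h
        rw [this]
        exact D.tsz
    refine ⟨⟨X, hX⟩, hXW, ?_⟩
    ext a
    constructor
    · rintro (⟨h1, h2⟩ | ⟨h1, h2, h3⟩ | ⟨h1, ⟨a', ha', hta', haa'⟩, h3⟩)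
      · exact absurd (hX.lower _ _ h1 h2) htX
      · exact hR.lower _ _ (Or.inr ⟨h1, h2, htb⟩) hb
      · refine hR.lower _ _ (Or.inl ⟨haa', fun n hn => h3 n ?_⟩) ha'
        exact ⟨a', ha', hta', hn⟩
    · intro ha
      by_cases hta : D.ts ≤ a.val
      · refine Or.inr (Or.inl ⟨hta, ?_, htX⟩)
        rcases hR.chain a ha b hb with h | h
        · rcases h with ⟨h1, _⟩ | ⟨_, h2, _⟩
          · exact absurd (hta.trans h1) htb
          · exact h2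
        · exact absurd hta (D.not_ts_of_le h htb)
      · refine Or.inr (Or.inr ⟨hta, ⟨a, ha, hta, le_rfl⟩, ?_⟩)
        rintro n ⟨a', ha', hta', hn⟩
        rcases hR.chain a ha a' ha' with h | h
        · exact (D.le_of_not_ts h hta).2 n hn
        · exact hn.trans (D.le_of_not_ts h hta').1
  · push Not at hc
    let X : Set T := {s | ∃ a ∈ R, s ≤ a.val}
    have hle : ∀ a ∈ R, ∀ b ∈ R, a ≤ b → a.val ≤ b.val := fun a _ b hb h =>
      (D.le_of_ts h (hc b hb)).1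
    have hX : IsRay X := by
      refine ⟨⟨D.root.val, D.root, hrootR, le_rfl⟩, ?_, ?_, ?_⟩
      · rintro s ⟨a, ha, hsa⟩ s' ⟨a', ha', hsa'⟩
        rcases hR.chain a ha a' ha' with h | h
        · exact D.hT.comparable (hsa.trans (hle _ ha _ ha' h)) hsa'
        · exact D.hT.comparable hsa (hsa'.trans (hle _ ha' _ ha h))
      · rintro s s' hss' ⟨a, ha, hsa⟩
        exact ⟨a, ha, hss'.trans hsa⟩
      · rintro s ⟨a, ha, hsa⟩
        obtain ⟨a', ha', haa'⟩ := hR.noMax a ha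
        refine ⟨a'.val, ⟨a', ha', le_rfl⟩, hsa.trans_lt ?_⟩
        exact lt_of_le_of_ne (hle _ ha _ ha' haa'.le) fun h => haa'.ne (D.ext' h)
    have htX : D.ts ∈ X := ⟨D.root, hrootR, le_rfl⟩
    have hup : ∀ a : D.Node, D.ts ≤ a.val → a.val ∈ X → a ∈ R := by
      rintro a hta ⟨a', ha', haa'⟩
      exact hR.lower _ _ (Or.inl ⟨haa', fun n _ => (D.c_le_ts n).trans hta⟩) ha'
    rcases D.hfull ⟨X, hX⟩ ⟨D.root, hrootR, D.root.le⟩ (by
        rintro s ⟨a, ha, hsa⟩ _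
        obtain ⟨x, hx, hax⟩ := a.mem
        exact ⟨x, hx, x.2.lower _ _ hsa hax⟩) with h | h
    · refine ⟨⟨X, hX⟩, h, ?_⟩
      ext a
      constructor
      · rintro (⟨h1, h2⟩ | ⟨h1, h2, h3⟩ | ⟨h1, h2, h3⟩)
        · exact hup a h1 h2
        · exact absurd htX h3
        · exact absurd htX (D.ts_notMem_of (x := ⟨X, hX⟩) h1 h2 h3)
      · intro ha
        exact Or.inl ⟨hc a ha, a, ha, le_rfl⟩
    · have hXz : X = D.z.1 := congrArg Subtype.val h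
      refine ⟨D.z₀, D.hz₀, ?_⟩
      ext a
      rw [D.g_z₀_mem]
      constructor
      · rintro ⟨h1, h2⟩
        rw [← hXz] at h2
        exact hup a h1 h2
      · intro ha
        refine ⟨hc a ha, ?_⟩
        rw [← hXz]
        exact ⟨a, ha, le_rfl⟩

theorem continuity (a : D.Node) (x : RaySpace T) :
    ∃ N ∈ 𝓝 x, ∀ y ∈ N, (a ∈ D.g y ↔ a ∈ D.g x) := by
  classical
  obtain ⟨N₁, hN₁, h₁⟩ := clopen_mem a.val x
  by_cases hta : D.ts ≤ a.val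
  · obtain ⟨N₂, hN₂, h₂⟩ := clopen_mem D.ts x
    refine ⟨N₁ ∩ N₂, Filter.inter_mem hN₁ hN₂, fun y hy => ?_⟩
    simp only [g, mem_ofPred_eq, hta, true_and, not_true_eq_false, false_and, or_false,
      h₁ y hy.1, h₂ y hy.2]
  · by_cases hc : ∀ n, D.c n ≤ a.val
    · refine ⟨N₁, hN₁, fun y hy => ?_⟩
      simp only [g, mem_ofPred_eq, hta, false_and, false_or, not_false_eq_true, true_and,
        h₁ y hy, hc, implies_true]
    · push Not at hc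
      have hn := Nat.find_spec hc
      have hmin := fun m => Nat.find_min hc (m := m)
      set n := Nat.find hc
      obtain ⟨N₂, hN₂, h₂⟩ := clopen_mem (D.c n) x
      have key : ∀ y : RaySpace T, (∀ m, D.c m ∈ y.1 → D.c m ≤ a.val) ↔ D.c n ∉ y.1 := by
        intro y
        constructor
        · exact fun h h' => hn (h n h')
        · intro h m hm
          by_contra hma
          have : n ≤ m := by
            by_contra hlt
            exact hmin m (by omega) hma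
          exact h (y.2.lower _ _ (D.cmono.monotone this) hm)
      refine ⟨N₁ ∩ N₂, Filter.inter_mem hN₁ hN₂, fun y hy => ?_⟩
      simp only [g, mem_ofPred_eq, hta, false_and, false_or, not_false_eq_true, true_and,
        h₁ y hy.1, key, h₂ y hy.2]

include D in
theorem qr : QR W :=
  ⟨D.Node, D.order, D.isOrderTree, D.g, fun _ hx => D.isRay_g hx,
    fun a x _ => by
      obtain ⟨N, hN, h⟩ := D.continuity a x
      exact ⟨N, hN, fun y hy _ => h y hy⟩,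
    fun _ hx _ hy h => D.injective hx hy h, D.surjective⟩

end PlugData

/-- The plug lemma. -/
theorem qr_plug {T : Type u} [PartialOrder T] (hT : IsOrderTree T) (W : Set (RaySpace T)) (t : T)
    (ht : ∀ x ∈ W, t ∈ x.1) (z : RaySpace T) (hzW : z ∉ W)
    (hA : ∀ a ∈ z.1, t ≤ a → ∃ x ∈ W, a ∈ x.1)
    (hfull : ∀ y : RaySpace T, t ∈ y.1 → (∀ a ∈ y.1, t ≤ a → ∃ x ∈ W, a ∈ x.1) → y ∈ W ∨ y = z)
    (z' : RaySpace T) (hz' : z' ∈ W) (hz'z : z'.1 ⊆ z.1) : QR W := by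
  classical
  have htz : t ∈ z.1 := hz'z (ht _ hz')
  -- successors in z
  have hsucc : ∀ a : z.1, ∃ b : z.1, a.1 < b.1 ∧ ∀ s ∈ z.1, a.1 < s → b.1 ≤ s := by
    intro a
    obtain ⟨s₀, hs₀, has₀⟩ := z.2.noMax a.1 a.2
    obtain ⟨m, hm, hmin⟩ := hT.exists_least z.2 (A := {s | s ∈ z.1 ∧ a.1 < s})
      (fun s hs => hs.1) ⟨s₀, hs₀, has₀⟩
    exact ⟨⟨m, hm.1⟩, hm.2, fun s hs has => hmin s ⟨hs, has⟩⟩
  choose f hf1 hf2 using hsucc
  let c' : ℕ → z.1 := fun n => Nat.rec (⟨t, htz⟩ : z.1) (fun _ a => f a) n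
  have hc'0 : (c' 0).1 = t := rfl
  have hc's : ∀ n, c' (n + 1) = f (c' n) := fun n => rfl
  have hclt : ∀ n, (c' n).1 < (c' (n + 1)).1 := fun n => by rw [hc's]; exact hf1 _
  have hcmono : StrictMono fun n => (c' n).1 := strictMono_nat_of_lt_succ hclt
  have hcz' : ∀ n, (c' n).1 ∈ z'.1 := by
    intro n
    induction n with
    | zero => exact ht _ hz'
    | succ n ih =>
      obtain ⟨s, hs, hcs⟩ := z'.2.noMax _ ih
      rw [hc's]
      exact z'.2.lower _ _ (hf2 _ s (hz'z hs) hcs) hs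
  let Z : Set T := {a | ∃ n, a ≤ (c' n).1}
  have hZray : IsRay Z := by
    refine ⟨⟨t, 0, le_rfl⟩, ?_, ?_, ?_⟩
    · rintro s ⟨n, hn⟩ s' ⟨m, hm⟩
      exact hT.comparable (hn.trans (hcmono.monotone (le_max_left n m)))
        (hm.trans (hcmono.monotone (le_max_right n m)))
    · rintro s s' hss' ⟨n, hn⟩
      exact ⟨n, hss'.trans hn⟩
    · rintro s ⟨n, hn⟩
      exact ⟨(c' (n + 1)).1, ⟨n + 1, le_rfl⟩, hn.trans_lt (hclt n)⟩
  have hZz' : Z ⊆ z'.1 := by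
    rintro a ⟨n, hn⟩
    exact z'.2.lower _ _ hn (hcz' n)
  have hZz : Z ⊆ z.1 := hZz'.trans hz'z
  have hne : Z ≠ z.1 := by
    intro h
    have : z'.1 = z.1 := Subset.antisymm hz'z (h ▸ hZz')
    exact hzW (Subtype.ext this ▸ hz')
  have hZW : (⟨Z, hZray⟩ : RaySpace T) ∈ W := by
    rcases hfull ⟨Z, hZray⟩ ⟨0, le_rfl⟩ (fun a ha _ => ⟨z', hz', hZz' ha⟩) with h | h
    · exact h
    · exact absurd (congrArg Subtype.val h) hne
  have hex : ∃ a ∈ z.1, a ∉ Z := by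
    by_contra hcon
    push Not at hcon
    exact hne (Subset.antisymm hZz hcon)
  obtain ⟨a₀, ha₀, ha₀'⟩ := hex
  obtain ⟨ts, hts, hmin⟩ := hT.exists_least z.2 (A := {s | s ∈ z.1 ∧ s ∉ Z})
      (fun s hs => hs.1) ⟨a₀, ha₀, ha₀'⟩
  exact PlugData.qr
    { hT := hT, t := t, z := z, z₀ := ⟨Z, hZray⟩, c := fun n => (c' n).1, ts := ts, c0 := rfl,
      clt := hclt, ht := ht, hz := hzW, hz₀ := hZW, mem_z₀ := fun a => Iff.rfl, z₀_sub := hZz,
      tsz := hts.1, ts_least := fun a ha ha' => hmin a ⟨ha, ha'⟩, ts_not := hts.2, hA := hA,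
      hfull := hfull }

end Pool.Agent.Work.MP_a0fd6e_gt
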