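import Pool.Agent.Work.MP_a0fd6e_gt.Defs

set_option autoImplicit false

universe u

open Set Topology

namespace Pool.Agent.Work.MP_a0fd6e_gt

theorem isInducing_code {T : Type u} [PartialOrder T] :
    IsInducing (RaySpace.code : RaySpace T → (T → Bool)) := ⟨rfl⟩

/-- A combinatorial form of quasi-ray for a subset `W` of a space `Y`. -/
def QR {Y : Type u} [TopologicalSpace Y] (W : Set Y) : Prop :=
  ∃ (T : Type u) (_ : PartialOrder T), IsOrderTree T ∧
    ∃ g : Y → Set T, (∀ x ∈ W, IsRay (g x)) ∧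
      (∀ a : T, ∀ x ∈ W, ∃ N ∈ 𝓝 x, ∀ y ∈ N, y ∈ W → (a ∈ g y ↔ a ∈ g x)) ∧
      (∀ x ∈ W, ∀ y ∈ W, g x = g y → x = y) ∧
      (∀ R : Set T, IsRay R → ∃ x ∈ W, g x = R)

theorem QR.isQuasiRay {Y : Type u} [TopologicalSpace Y] {W : Set Y} (h : QR W) :
    IsQuasiRay W := by
  classical
  obtain ⟨T, _, hT, g, hray, hcont, hinj, hsurj⟩ := h
  let f : W → RaySpace T := fun x => ⟨g x.1, hray x.1 x.2⟩
  refine ⟨T, _, hT, f, ?_, ?_, ?_⟩
  · rw [isInducing_code.continuous_iff]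
    refine continuous_pi fun a => ?_
    rw [continuous_iff_continuousAt]
    intro x
    obtain ⟨N, hN, hNx⟩ := hcont a x.1 x.2
    have hev : ∀ᶠ y : W in 𝓝 x, decide (a ∈ g y.1) = decide (a ∈ g x.1) := by
      have : (Subtype.val : W → Y) ⁻¹' N ∈ 𝓝 x := continuous_subtype_val.continuousAt hN
      filter_upwards [this] with y hy
      simp only [hNx y.1 hy y.2]
    have h2 : ContinuousAt (fun y : W => decide (a ∈ g y.1)) x := by
      refine ContinuousAt.congr (f := fun _ => decide (a ∈ g x.1)) continuousAt_const ?_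
      filter_upwards [hev] with y hy
      exact hy.symm
    exact h2
  · intro x y hxy
    apply Subtype.ext
    exact hinj x.1 x.2 y.1 y.2 (congrArg Subtype.val hxy)
  · rintro ⟨R, hR⟩
    obtain ⟨x, hx, hgx⟩ := hsurj R hR
    exact ⟨⟨x, hx⟩, Subtype.ext hgx⟩

section tree

variable {T : Type u} [PartialOrder T]

theorem IsOrderTree.comparable (hT : IsOrderTree T) {a b t : T} (ha : a ≤ t) (hb : b ≤ t) :
    a ≤ b ∨ b ≤ a := by
  obtain ⟨m, hm, hmin⟩ := hT.wellOrdered t {a, b} ⟨a, by simp⟩ (by rintro x (rfl | rfl) <;> assumption)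
  rcases hm with rfl | hm
  · exact Or.inl (hmin b (by simp))
  · rw [mem_singleton_iff] at hm
    subst hm
    exact Or.inr (hmin a (by simp))

/-- Every nonempty subset of a ray has a least element. -/
theorem IsOrderTree.exists_least (hT : IsOrderTree T) {R : Set T} (hR : IsRay R) {A : Set T}
    (hA : A ⊆ R) (hne : A.Nonempty) : ∃ m ∈ A, ∀ a ∈ A, m ≤ a := by
  obtain ⟨a₀, ha₀⟩ := hne
  obtain ⟨m, hm, hmin⟩ := hT.wellOrdered a₀ {a | a ∈ A ∧ a ≤ a₀} ⟨a₀, ha₀, le_rfl⟩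
    (fun a ha => ha.2)
  refine ⟨m, hm.1, fun a ha => ?_⟩
  rcases hR.chain a (hA ha) a₀ (hA ha₀) with h | h
  · exact hmin a ⟨ha, h⟩
  · exact hm.2.trans h

theorem clopen_mem (a : T) (x : RaySpace T) : ∃ N ∈ 𝓝 x, ∀ y ∈ N, (a ∈ y.1 ↔ a ∈ x.1) := by
  classical
  refine ⟨{y | RaySpace.code y a = RaySpace.code x a}, ?_, ?_⟩
  · have h1 : Continuous fun y : RaySpace T => RaySpace.code y a :=
      (continuous_apply a).comp isInducing_code.continuous
    have h2 : IsOpen {y : RaySpace T | RaySpace.code y a = RaySpace.code x a} :=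
      (isOpen_discrete {RaySpace.code x a}).preimage h1
    exact h2.mem_nhds rfl
  · intro y hy
    have : decide (a ∈ y.1) = decide (a ∈ x.1) := hy
    simpa using this

theorem isOpen_mem (a : T) : IsOpen {x : RaySpace T | a ∈ x.1} := by
  rw [isOpen_iff_mem_nhds]
  intro x hx
  obtain ⟨N, hN, h⟩ := clopen_mem a x
  filter_upwards [hN] with y hy
  exact (h y hy).2 hx

theorem isOpen_notMem (a : T) : IsOpen {x : RaySpace T | a ∉ x.1} := by
  rw [isOpen_iff_mem_nhds]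
  intro x hx
  obtain ⟨N, hN, h⟩ := clopen_mem a x
  filter_upwards [hN] with y hy
  exact fun h' => hx ((h y hy).1 h')

/-- Basic neighbourhoods: finitely many nodes decide membership in an open set. -/
theorem exists_finset (U : Set (RaySpace T)) (hU : IsOpen U) (x : RaySpace T) (hx : x ∈ U) :
    ∃ F : Finset T, ∀ y : RaySpace T, (∀ a ∈ F, (a ∈ y.1 ↔ a ∈ x.1)) → y ∈ U := by
  classical
  obtain ⟨O, hO, rfl⟩ := isOpen_induced_iff.1 hU
  obtain ⟨F, u, hu, hsub⟩ := isOpen_pi_iff.1 hO _ hx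
  refine ⟨F, fun y hy => hsub ?_⟩
  intro a ha
  have : RaySpace.code y a = RaySpace.code x a := by
    simp only [RaySpace.code]
    simp only [hy a ha]
  rw [this]
  exact (hu a ha).2

/-- The subtree lemma. -/
theorem qr_subtree (hT : IsOrderTree T) (W : Set (RaySpace T)) (hW : W.Nonempty) (t : T)
    (ht : ∀ x ∈ W, t ∈ x.1)
    (hfull : ∀ y : RaySpace T, t ∈ y.1 → (∀ a ∈ y.1, t ≤ a → ∃ x ∈ W, a ∈ x.1) → y ∈ W) :
    QR W := by
  classical
  let A : Set T := {a | t ≤ a ∧ ∃ x ∈ W, a ∈ x.1}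
  have htA : t ∈ A := by
    obtain ⟨x, hx⟩ := hW
    exact ⟨le_rfl, x, hx, ht x hx⟩
  refine ⟨A, inferInstance, ⟨⟨⟨t, htA⟩, fun a => a.2.1⟩, ?_⟩, fun x => {a | a.1 ∈ x.1}, ?_, ?_, ?_, ?_⟩
  · intro b S hS hSb
    obtain ⟨m, hm, hmin⟩ := hT.wellOrdered b.1 (Subtype.val '' S) (hS.image _)
      (by rintro _ ⟨a, ha, rfl⟩; exact hSb a ha)
    obtain ⟨m', hm', rfl⟩ := hm
    exact ⟨m', hm', fun a ha => hmin a.1 ⟨a, ha, rfl⟩⟩
  · intro x hx
    refine ⟨⟨⟨t, htA⟩, ht x hx⟩, fun s hs a ha => x.2.chain _ hs _ ha,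
      fun s a hsa ha => x.2.lower _ _ hsa ha, fun a ha => ?_⟩
    obtain ⟨s, hs, has⟩ := x.2.noMax a.1 ha
    exact ⟨⟨s, a.2.1.trans has.le, x, hx, hs⟩, hs, has⟩
  · intro a x _
    obtain ⟨N, hN, h⟩ := clopen_mem a.1 x
    exact ⟨N, hN, fun y hy _ => h y hy⟩
  · intro x hx y hy hxy
    apply Subtype.ext
    have key : ∀ x ∈ W, ∀ y ∈ W, {a : A | a.1 ∈ x.1} = {a : A | a.1 ∈ y.1} → x.1 ⊆ y.1 := by
      intro x hx y hy hxy a ha
      rcases x.2.chain a ha t (ht x hx) with h | h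
      · exact y.2.lower _ _ h (ht y hy)
      · have : (⟨a, h, x, hx, ha⟩ : A) ∈ {a : A | a.1 ∈ x.1} := ha
        rw [hxy] at this
        exact this
    exact Subset.antisymm (key x hx y hy hxy) (key y hy x hx hxy.symm)
  · intro R hR
    let y : Set T := {s | ∃ a : A, a ∈ R ∧ s ≤ a.1}
    have hy : IsRay y := by
      refine ⟨?_, ?_, ?_, ?_⟩
      · obtain ⟨a, ha⟩ := hR.nonempty
        exact ⟨a.1, a, ha, le_rfl⟩
      · rintro s ⟨a, ha, hsa⟩ s' ⟨a', ha', hsa'⟩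
        rcases hR.chain a ha a' ha' with h | h
        · exact hT.comparable (hsa.trans h) hsa'
        · exact hT.comparable hsa (hsa'.trans h)
      · rintro s s' hss' ⟨a, ha, hs'a⟩
        exact ⟨a, ha, hss'.trans hs'a⟩
      · rintro s ⟨a, ha, hsa⟩
        obtain ⟨a', ha', haa'⟩ := hR.noMax a ha
        exact ⟨a'.1, ⟨a', ha', le_rfl⟩, hsa.trans_lt haa'⟩
    have htA' : ∀ a : A, a ∈ R → (⟨t, htA⟩ : A) ∈ R := fun a ha => hR.lower _ a a.2.1 ha
    have hyW : (⟨y, hy⟩ : RaySpace T) ∈ W := by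
      apply hfull
      · obtain ⟨a, ha⟩ := hR.nonempty
        exact ⟨a, ha, a.2.1⟩
      · rintro s ⟨a, ha, hsa⟩ _
        obtain ⟨x, hx, hax⟩ := a.2.2
        exact ⟨x, hx, x.2.lower _ _ hsa hax⟩
    refine ⟨⟨y, hy⟩, hyW, ?_⟩
    ext a
    constructor
    · rintro ⟨a', ha', haa'⟩
      exact hR.lower _ _ haa' ha'
    · intro ha
      exact ⟨a, ha, le_rfl⟩

end tree

end Pool.Agent.Work.MP_a0fd6e_gt
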